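import Mathlib

set_option autoImplicit false

namespace Pool.Agent.H.MP_514792_al

/-- Word length with respect to a finite set. -/
noncomputable def wordLength {G : Type} [Group G] (S : Finset G) (g : G) : ℕ :=
  sInf {n | ∃ l : List G, l.length = n ∧ (∀ x ∈ l, x ∈ S ∨ x⁻¹ ∈ S) ∧ l.prod = g}

/-- Least index of a finite index normal subgroup missing `g`. -/
noncomputable def depth {G : Type} [Group G] (g : G) : ℕ :=
  sInf {m | ∃ N : Subgroup G, N.Normal ∧ N.FiniteIndex ∧ g ∉ N ∧ N.index = m}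

/-- Residual finiteness growth function. -/
noncomputable def rfGrowth {G : Type} [Group G] (S : Finset G) (n : ℕ) : ℕ :=
  sSup {m | ∃ g : G, g ≠ 1 ∧ wordLength S g ≤ n ∧ depth g = m}

/-- The comparison of growth functions. -/
def Prec (f h : ℕ → ℝ) : Prop := ∃ C : ℕ, 0 < C ∧ ∀ n, 1 ≤ n → f n ≤ C * h (C * n)

end Pool.Agent.H.MP_514792_al
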