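import Mathlib
import Pool.Agent.H.MP_514792_al.Defs

set_option autoImplicit false

namespace Pool.Agent.H.MP_514792_al

section Ball
variable {G : Type} [Group G] (S : Finset G)

def Ball (n : ℕ) : Set G := {g | ∃ l : List G, l.length ≤ n ∧ (∀ x ∈ l, x ∈ S ∨ x⁻¹ ∈ S) ∧ l.prod = g}

variable {S}

lemma Ball.mono {m n : ℕ} {g : G} (h : g ∈ Ball S m) (hmn : m ≤ n) : g ∈ Ball S n :=
  h.imp fun _ h => ⟨h.1.trans hmn, h.2⟩

lemma Ball.mul {m n : ℕ} {g h : G} (h1 : g ∈ Ball S m) (h2 : h ∈ Ball S n) :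
    g * h ∈ Ball S (m + n) := by
  obtain ⟨l, a, b, rfl⟩ := h1
  obtain ⟨l', a', b', rfl⟩ := h2
  exact ⟨l ++ l', by simp; omega, fun x hx => (List.mem_append.1 hx).elim (b x) (b' x), by simp⟩

lemma Ball.inv {n : ℕ} {g : G} (h1 : g ∈ Ball S n) : g⁻¹ ∈ Ball S n := by
  obtain ⟨l, a, b, rfl⟩ := h1
  refine ⟨(l.map (·⁻¹)).reverse, by simpa using a, fun x hx => ?_, (List.prod_inv_reverse l).symm⟩
  obtain ⟨y, hy, rfl⟩ := List.mem_map.1 (List.mem_reverse.1 hx)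
  simpa [or_comm] using b y hy

lemma Ball.gen {g : G} (h : g ∈ S) : g ∈ Ball S 1 := ⟨[g], le_rfl, by simp [h], by simp⟩

lemma Ball.pow {g : G} (h : g ∈ S) (k : ℕ) : g ^ k ∈ Ball S k := by
  induction k with
  | zero => exact ⟨[], le_rfl, by simp, by simp⟩
  | succ k ih => rw [pow_succ]; exact Ball.mul ih (Ball.gen h)

lemma len_le {n : ℕ} {g : G} (h : g ∈ Ball S n) : wordLength S g ≤ n := by
  obtain ⟨l, a, b, c⟩ := h
  exact le_trans (Nat.sInf_le (s := {n | ∃ l : List G, l.length = n ∧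
    (∀ x ∈ l, x ∈ S ∨ x⁻¹ ∈ S) ∧ l.prod = g}) ⟨l, rfl, b, c⟩) a

lemma mem_ball (hS : Subgroup.closure (S : Set G) = ⊤) {n : ℕ} {g : G} (h : wordLength S g ≤ n) :
    g ∈ Ball S n := by
  have : ∃ k, g ∈ Ball S k := by
    have hg : g ∈ Subgroup.closure (S : Set G) := hS ▸ trivial
    clear h
    induction hg using Subgroup.closure_induction with
    | mem x hx => exact ⟨1, Ball.gen hx⟩
    | one => exact ⟨0, [], le_rfl, by simp, by simp⟩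
    | mul x y _ _ hx hy => exact ⟨_, Ball.mul hx.choose_spec hy.choose_spec⟩
    | inv x _ hx => exact ⟨_, Ball.inv hx.choose_spec⟩
  obtain ⟨k, l, -, b, c⟩ := this
  obtain ⟨l', a', b', c'⟩ := Nat.sInf_mem (s := {n | ∃ l : List G, l.length = n ∧
    (∀ x ∈ l, x ∈ S ∨ x⁻¹ ∈ S) ∧ l.prod = g}) ⟨_, l, rfl, b, c⟩
  exact ⟨l', a'.le.trans h, b', c'⟩

/-- every nontrivial element of the `n`-ball is seen in a quotient of size at most `M`. -/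
def Up (S : Finset G) (n M : ℕ) : Prop :=
  ∀ g ∈ Ball S n, g ≠ 1 → ∃ N : Subgroup G, N.Normal ∧ N.FiniteIndex ∧ g ∉ N ∧ N.index ≤ M

def Low (S : Finset G) (n M : ℕ) : Prop :=
  ∃ g ∈ Ball S n, g ≠ 1 ∧ ∀ N : Subgroup G, N.Normal → N.FiniteIndex → g ∉ N → M ≤ N.index

lemma Up.depth {n M : ℕ} (hS : Subgroup.closure (S : Set G) = ⊤) (h : Up S n M) :
    ∀ m ∈ {m | ∃ g : G, g ≠ 1 ∧ wordLength S g ≤ n ∧ depth g = m}, m ≤ M := by
  rintro _ ⟨g, h1, h2, rfl⟩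
  obtain ⟨N, a, b, c, d⟩ := h g (mem_ball hS h2) h1
  exact le_trans (Nat.sInf_le (s := {m | ∃ N : Subgroup G, N.Normal ∧
    N.FiniteIndex ∧ g ∉ N ∧ N.index = m}) ⟨N, a, b, c, rfl⟩) d

lemma Up.le {n M : ℕ} (hS : Subgroup.closure (S : Set G) = ⊤) (h : Up S n M) : rfGrowth S n ≤ M :=
  csSup_le' (h.depth hS)

lemma rf (hS : Subgroup.closure (S : Set G) = ⊤) (h : ∀ n, ∃ M, Up S n M) (g : G) (hg : g ≠ 1) :
    ∃ N : Subgroup G, N.Normal ∧ N.FiniteIndex ∧ g ∉ N := by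
  obtain ⟨M, hM⟩ := h (wordLength S g)
  obtain ⟨N, a, b, c, -⟩ := hM g (mem_ball hS le_rfl) hg
  exact ⟨N, a, b, c⟩

lemma Low.le {k n M : ℕ} (hS : Subgroup.closure (S : Set G) = ⊤) (h : ∀ n, ∃ M, Up S n M)
    (hl : Low S k M) (hk : k ≤ n) : M ≤ rfGrowth S n := by
  obtain ⟨g, a, b, c⟩ := hl
  obtain ⟨M', hM⟩ := h n
  refine le_trans ?_ (le_csSup ⟨M', hM.depth hS⟩ ⟨g, b, (len_le a).trans hk, rfl⟩)
  obtain ⟨N, a, b, c'⟩ := rf hS h g b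
  obtain ⟨N', a', b', c', d'⟩ := Nat.sInf_mem (s := {m | ∃ N : Subgroup G, N.Normal ∧
    N.FiniteIndex ∧ g ∉ N ∧ N.index = m}) ⟨_, N, a, b, c', rfl⟩
  exact (c N' a' b' c').trans d'.le

end Ball

@[ext] structure Hall {S U Z : Type} [CommRing S] [CommGroup U] [AddCommGroup Z] (ρ : U →* S)
    (φ : S →+ Z) where
  a : S
  u : U
  b : S
  c : Z

namespace Hall
variable {S U Z : Type} [CommRing S] [CommGroup U] [AddCommGroup Z] {ρ : U →* S} {φ : S →+ Z}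

instance : Mul (Hall ρ φ) :=
  ⟨fun g h => ⟨h.a + g.a * ρ h.u, g.u * h.u, g.b + ρ g.u * h.b, g.c + h.c + φ (g.a * h.b)⟩⟩
instance : One (Hall ρ φ) := ⟨⟨0, 1, 0, 0⟩⟩
instance : Inv (Hall ρ φ) :=
  ⟨fun g => ⟨-(g.a * ρ g.u⁻¹), g.u⁻¹, -(ρ g.u⁻¹ * g.b), -g.c + φ (g.a * ρ g.u⁻¹ * g.b)⟩⟩

@[simp] lemma mul_a (g h : Hall ρ φ) : (g * h).a = h.a + g.a * ρ h.u := rfl
@[simp] lemma mul_u (g h : Hall ρ φ) : (g * h).u = g.u * h.u := rfl
@[simp] lemma mul_b (g h : Hall ρ φ) : (g * h).b = g.b + ρ g.u * h.b := rfl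
@[simp] lemma mul_c (g h : Hall ρ φ) : (g * h).c = g.c + h.c + φ (g.a * h.b) := rfl
@[simp] lemma one_a : (1 : Hall ρ φ).a = 0 := rfl
@[simp] lemma one_u : (1 : Hall ρ φ).u = 1 := rfl
@[simp] lemma one_b : (1 : Hall ρ φ).b = 0 := rfl
@[simp] lemma one_c : (1 : Hall ρ φ).c = 0 := rfl
@[simp] lemma inv_a (g : Hall ρ φ) : g⁻¹.a = -(g.a * ρ g.u⁻¹) := rfl
@[simp] lemma inv_u (g : Hall ρ φ) : g⁻¹.u = g.u⁻¹ := rfl
@[simp] lemma inv_b (g : Hall ρ φ) : g⁻¹.b = -(ρ g.u⁻¹ * g.b) := rfl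
@[simp] lemma inv_c (g : Hall ρ φ) : g⁻¹.c = -g.c + φ (g.a * ρ g.u⁻¹ * g.b) := rfl

instance : Group (Hall ρ φ) := Group.ofLeftAxioms
  (fun g h k => by
    ext
    · simp; ring
    · simp [mul_assoc]
    · simp; ring
    · simp only [mul_a, mul_b, mul_c, add_mul, mul_add, map_add, mul_assoc]; abel)
  (fun g => by ext <;> simp)
  (fun g => by
    ext
    · simp [mul_assoc, ← map_mul]
    · simp
    · simp
    · simp)

def A (x : S) : Hall ρ φ := ⟨x, 1, 0, 0⟩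
def B (x : S) : Hall ρ φ := ⟨0, 1, x, 0⟩
def D (x : U) : Hall ρ φ := ⟨0, x, 0, 0⟩
def E (x : Z) : Hall ρ φ := ⟨0, 1, 0, x⟩

lemma A_add (x y : S) : (A (x + y) : Hall ρ φ) = A x * A y := by ext <;> simp [A, add_comm]
lemma A_sub (x y : S) : (A (y - x) : Hall ρ φ) = (A x)⁻¹ * A y := by ext <;> simp [A, sub_eq_add_neg]
lemma B_add (x y : S) : (B (x + y) : Hall ρ φ) = B x * B y := by ext <;> simp [B]
lemma E_add (x y : Z) : (E (x + y) : Hall ρ φ) = E x * E y := by ext <;> simp [E]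
lemma E_sub (x y : Z) : (E (x - y) : Hall ρ φ) = E x * (E y)⁻¹ := by ext <;> simp [E, sub_eq_add_neg]
lemma D_mul (x y : U) : (D (x * y) : Hall ρ φ) = D x * D y := by ext <;> simp [D]
def Dh : U →* Hall ρ φ := MonoidHom.mk' D D_mul
lemma conjA (x : S) (u : U) : (D u)⁻¹ * A x * D u = (A (x * ρ u) : Hall ρ φ) := by
  ext <;> simp [A, D]
lemma conjB (x : S) (u : U) : D u * B x * (D u)⁻¹ = (B (ρ u * x) : Hall ρ φ) := by
  ext <;> simp [B, D]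
lemma comm (x y : S) : A x * B y * (A x)⁻¹ * (B y)⁻¹ = (E (φ (x * y)) : Hall ρ φ) := by
  ext <;> simp [A, B, E]
lemma decomp (g : Hall ρ φ) : g = E g.c * B g.b * D g.u * A g.a := by
  ext <;> simp [A, B, D, E]

def map {S' U' Z' : Type} [CommRing S'] [CommGroup U'] [AddCommGroup Z'] {ρ' : U' →* S'}
    {φ' : S' →+ Z'} (f : S →+* S') (k : U →* U') (l : Z →+ Z') (h1 : ∀ u, ρ' (k u) = f (ρ u))
    (h2 : ∀ x, l (φ x) = φ' (f x)) : Hall ρ φ →* Hall ρ' φ' :=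
  MonoidHom.mk' (fun g => ⟨f g.a, k g.u, f g.b, l g.c⟩) fun g h => by ext <;> simp [h1, h2]

def equiv : Hall ρ φ ≃ S × U × S × Z :=
  ⟨fun g => (g.a, g.u, g.b, g.c), fun p => ⟨p.1, p.2.1, p.2.2.1, p.2.2.2⟩, fun _ => rfl, fun _ => rfl⟩

end Hall

end Pool.Agent.H.MP_514792_al
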