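import Mathlib
import Pool.Agent.H.MP_514792_al.Grp

set_option autoImplicit false

namespace Pool.Agent.H.MP_514792_al

open LaurentPolynomial Polynomial Hall

abbrev F2 := ZMod 2
abbrev R := LaurentPolynomial F2

noncomputable def ρ0 : Multiplicative ℤ →* R where
  toFun k := T k.toAdd
  map_one' := rfl
  map_mul' a b := T_add _ _

@[simp] lemma ρ0_apply (k : Multiplicative ℤ) : ρ0 k = T k.toAdd := rfl

def W (n : ℕ) (f : R) : Prop := ∃ p : F2[X], p.natDegree ≤ 2 * n ∧ toLaurent p = T n * f

lemma W.mul {m n : ℕ} {f g : R} (h1 : W m f) (h2 : W n g) : W (m + n) (f * g) := by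
  obtain ⟨p, a, b⟩ := h1
  obtain ⟨q, a', b'⟩ := h2
  exact ⟨p * q, natDegree_mul_le.trans (by omega), by
    rw [map_mul, b, b', Nat.cast_add, T_add]; ring⟩

lemma W_T {n : ℕ} {k : ℤ} (h : |k| ≤ n) : W n (T k) := by
  rw [abs_le] at h
  refine ⟨X ^ (n + k).toNat, natDegree_X_pow_le _ |>.trans (by omega), ?_⟩
  rw [toLaurent_X_pow, ← T_add, Int.toNat_of_nonneg (by omega)]

lemma W.mono {m n : ℕ} {f : R} (h : W m f) (hmn : m ≤ n) : W n f := by
  have := h.mul (W_T (n := n - m) (k := 0) (by simp))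
  rwa [T_zero, mul_one, Nat.add_sub_cancel' hmn] at this

lemma W.add {n : ℕ} {f g : R} (h1 : W n f) (h2 : W n g) : W n (f + g) := by
  obtain ⟨p, a, b⟩ := h1
  obtain ⟨q, a', b'⟩ := h2
  exact ⟨p + q, natDegree_add_le_of_degree_le a a', by rw [map_add, b, b', mul_add]⟩

lemma W.smul {n : ℕ} {f : R} (c : F2) (h1 : W n f) : W n (c • f) := by
  obtain ⟨p, a, b⟩ := h1
  refine ⟨c • p, (natDegree_smul_le _ _).trans a, ?_⟩
  rw [Polynomial.smul_eq_C_mul, map_mul, b, toLaurent_C, LaurentPolynomial.smul_eq_C_mul]; ring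

lemma W.neg {n : ℕ} {f : R} (h1 : W n f) : W n (-f) := by
  have := h1.smul (-1)
  rwa [neg_one_smul] at this

lemma f2 (a : F2) : a = 0 ∨ a = 1 := by revert a; decide

lemma W.sub {n : ℕ} {f g : R} (h1 : W n f) (h2 : W n g) : W n (f - g) := by
  rw [sub_eq_add_neg]; exact h1.add h2.neg

lemma W_zero (n : ℕ) : W n 0 := ⟨0, by simp, by simp⟩
lemma W_one (n : ℕ) : W n 1 := W_T (k := 0) (by simp)

lemma count {F : Type} [Field F] [Fintype F] [Algebra F2 F] {E : Type} [Fintype E] (f : E → R)
    {K m : ℕ} (h0 : ∀ e, f e ≠ 0) (hW : ∀ e, W K (f e))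
    (hc : Fintype.card E * (2 * K) ^ m < (Fintype.card F - 1) ^ m) :
    ∃ θ : Fin m → Fˣ, ∀ e, ∃ j, LaurentPolynomial.eval₂ (algebraMap F2 F) (θ j) (f e) ≠ 0 := by
  classical
  by_contra h
  push Not at h
  let Z : E → Finset Fˣ := fun e =>
    Finset.univ.filter fun x => LaurentPolynomial.eval₂ (algebraMap F2 F) x (f e) = 0
  have hZ : ∀ e, (Z e).card ≤ 2 * K := fun e => by
    obtain ⟨p, a, b⟩ := hW e
    have hp : p.map (algebraMap F2 F) ≠ 0 := by
      rw [Ne, Polynomial.map_eq_zero]
      rintro rfl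
      exact h0 e (((isUnit_T _).mul_right_eq_zero).1 (by simpa using b.symm))
    refine le_trans ?_ ((Multiset.toFinset_card_le _).trans ((card_roots' _).trans
      ((natDegree_map_le (f := algebraMap F2 F)).trans a)))
    refine Finset.card_le_card_of_injOn (fun x => (x : F)) (fun x hx => ?_)
      fun _ _ _ _ h => Units.ext h
    have := congrArg (LaurentPolynomial.eval₂ (algebraMap F2 F) x) b
    rw [eval₂_toLaurent, map_mul, (Finset.mem_filter.1 hx).2, mul_zero] at this
    simpa [mem_roots hp, eval_map] using this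
  have : (Finset.univ : Finset (Fin m → Fˣ)) ⊆
      Finset.univ.biUnion fun e => Fintype.piFinset fun _ => Z e := fun θ _ => by
    obtain ⟨e, he⟩ := h θ
    simp only [Finset.mem_biUnion, Finset.mem_univ, true_and, Fintype.mem_piFinset]
    exact ⟨e, fun j => Finset.mem_filter.2 ⟨Finset.mem_univ _, he j⟩⟩
  have h2 := (Finset.card_le_card this).trans (Finset.card_biUnion_le_card_mul _ _ ((2 * K) ^ m)
    fun e _ => by
      rw [Fintype.card_piFinset, Finset.prod_const, Finset.card_fin]
      exact Nat.pow_le_pow_left (hZ e) _)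
  simp only [Finset.card_univ, Fintype.card_fun, Fintype.card_fin, Fintype.card_units] at h2
  omega

variable (d s : ℕ → ℕ)

def P (i : ℕ) : ℕ := 2 ^ d i - 1

noncomputable def rel (i j : ℕ) : R := (T (P d i) - 1) * T j

noncomputable def Cs : AddSubgroup R := AddSubgroup.closure {x | ∃ i j, j < s i ∧ x = rel d i j}

abbrev GG := Hall ρ0 (QuotientAddGroup.mk' (Cs d s))

open Classical in
noncomputable def gens : Finset (GG d s) := {A 1, B 1, D (Multiplicative.ofAdd 1)}

lemma gen_A : A 1 ∈ gens d s := by simp [gens]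
lemma gen_B : B 1 ∈ gens d s := by simp [gens]
lemma gen_D : D (Multiplicative.ofAdd 1) ∈ gens d s := by simp [gens]

lemma gens_top : Subgroup.closure (gens d s : Set (GG d s)) = ⊤ := by
  set H := Subgroup.closure (gens d s : Set (GG d s))
  have hD : ∀ u, D u ∈ H := fun u => by
    have := zpow_mem (Subgroup.subset_closure (k := (gens d s : Set (GG d s))) (gen_D d s)) u.toAdd
    change Dh (Multiplicative.ofAdd 1) ^ _ ∈ H at this
    rw [← map_zpow] at this
    simpa [← ofAdd_zsmul] using! this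
  have hA : ∀ x, A x ∈ H := fun x => by
    induction x using LaurentPolynomial.induction_on' with
    | add p q hp hq => rw [A_add]; exact mul_mem hp hq
    | C_mul_T n a =>
      rcases f2 a with rfl | rfl
      · rw [map_zero, zero_mul]; exact one_mem H
      · have := mul_mem (mul_mem (inv_mem (hD (.ofAdd n)))
          (Subgroup.subset_closure (k := (gens d s : Set (GG d s))) (gen_A d s))) (hD (.ofAdd n))
        rw [conjA] at this
        simpa using this
  have hB : ∀ x, B x ∈ H := fun x => by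
    induction x using LaurentPolynomial.induction_on' with
    | add p q hp hq => rw [B_add]; exact mul_mem hp hq
    | C_mul_T n a =>
      rcases f2 a with rfl | rfl
      · rw [map_zero, zero_mul]; exact one_mem H
      · have := mul_mem (mul_mem (hD (.ofAdd n))
          (Subgroup.subset_closure (k := (gens d s : Set (GG d s))) (gen_B d s))) (inv_mem (hD (.ofAdd n)))
        rw [conjB] at this
        simpa using this
  refine top_unique fun g _ => ?_
  rw [decomp g]
  refine mul_mem (mul_mem (mul_mem ?_ (hB _)) (hD _)) (hA _)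
  obtain ⟨x, hx⟩ := QuotientAddGroup.mk'_surjective (Cs d s) g.c
  rw [← hx, ← mul_one x, ← Hall.comm]
  exact mul_mem (mul_mem (mul_mem (hA _) (hB _)) (inv_mem (hA _))) (inv_mem (hB _))

def Good (n : ℕ) (g : GG d s) : Prop :=
  |g.u.toAdd| ≤ n ∧ W n g.a ∧ W n g.b ∧ ∃ c, W n c ∧ QuotientAddGroup.mk' (Cs d s) c = g.c

variable {d s}

lemma Good.mul {m n : ℕ} {g h : GG d s} (h1 : Good d s m g) (h2 : Good d s n h) :
    Good d s (m + n) (g * h) := by
  obtain ⟨a1, a2, a3, x, a4, a5⟩ := h1
  obtain ⟨b1, b2, b3, y, b4, b5⟩ := h2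
  refine ⟨(abs_add_le _ _).trans (by push_cast; omega), (b2.mono (by omega)).add (a2.mul (W_T b1)),
    (a3.mono (by omega)).add ((W_T a1).mul b3), x + y + g.a * h.b,
    ((a4.mono (by omega)).add (b4.mono (by omega))).add (a2.mul b3), ?_⟩
  rw [map_add, map_add, a5, b5, mul_c]

lemma good {n : ℕ} {g : GG d s} (h : g ∈ Ball (gens d s) n) : Good d s n g := by
  obtain ⟨l, a, b, rfl⟩ := h
  induction l generalizing n with
  | nil => exact ⟨by simp, W_zero _, W_zero _, 0, W_zero _, rfl⟩
  | cons x l ih =>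
    obtain ⟨n, rfl⟩ : ∃ k, n = 1 + k := ⟨n - 1, by simp at a; omega⟩
    rw [List.prod_cons]
    refine Good.mul ?_ (ih (by simp at a; omega) fun y hy => b y (by simp [hy]))
    have z := W_zero 1
    have o := W_one 1
    rcases b x (by simp) with h | h
    · simp only [gens, Finset.mem_insert, Finset.mem_singleton] at h
      rcases h with rfl | rfl | rfl
      · exact ⟨by simp [A], o, z, 0, z, rfl⟩
      · exact ⟨by simp [B], z, o, 0, z, rfl⟩
      · exact ⟨by simp [D], z, z, 0, z, rfl⟩
    · simp only [gens, Finset.mem_insert, Finset.mem_singleton, inv_eq_iff_eq_inv] at h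
      rcases h with rfl | rfl | rfl
      · exact ⟨by simp [A], by simpa [A] using o.neg, by simpa [A] using z, 0, z, by simp [A]⟩
      · exact ⟨by simp [B], by simpa [B] using z, by simpa [B] using o.neg, 0, z, by simp [B]⟩
      · exact ⟨by simp [D], by simpa [D] using z, by simpa [D] using z, 0, z, by simp [D]⟩

lemma T_eq_one {k : ℤ} (h : (T k : R) = 1) : k = 0 := by
  have := congrArg (fun f : R => f.coeff 0) h
  by_contra hk
  simp [hk, ← T_zero] at this

theorem upper {n i m K : ℕ} (h1 : n ≤ K) (h2 : ∀ i' < i, P d i' + s i' ≤ K) (h3 : d i ≠ 0)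
    (h4 : ∀ i', i ≤ i' → d i ∣ d i')
    (h5 : 2 ^ (∑ i' : Fin i, s i') * (2 * K) ^ m < (2 ^ d i - 1) ^ m) :
    Up (gens d s) n (2 ^ (4 * m * d i)) := by
  classical
  intro g hg hg1
  obtain ⟨a1, a2, a3, x, a4, a5⟩ := good hg
  let F := GaloisField 2 (d i)
  haveI : Fintype F := Fintype.ofFinite F
  have hF : Fintype.card F = 2 ^ d i := by rw [← Nat.card_eq_fintype_card, GaloisField.card 2 _ h3]
  let ι := Σ i' : Fin i, Fin (s i')
  let v : ι → R := fun k => rel d k.1 k.2
  have hv : ∀ e : ι → F2, W K (∑ k, e k • v k) ∧ ∑ k, e k • v k ∈ Cs d s := fun e => by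
    refine Finset.sum_induction _ (fun y => W K y ∧ y ∈ Cs d s)
      (fun a b ha hb => ⟨ha.1.add hb.1, add_mem ha.2 hb.2⟩) ⟨W_zero _, zero_mem _⟩ fun k _ => ⟨?_, ?_⟩
    · refine W.smul _ (((W_T (n := P d k.1) (by simp)).sub (W_one _)).mul
        (W_T (n := s k.1) (by simp)) |>.mono (h2 _ k.1.2))
    · rcases f2 (e k) with c | c
      · simp [c]
      · rw [c, one_smul]; exact AddSubgroup.subset_closure ⟨_, _, k.2.2, rfl⟩
  obtain ⟨f, f0, fW, hf⟩ : ∃ f : (ι → F2) → R, (∀ e, f e ≠ 0) ∧ (∀ e, W K (f e)) ∧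
      ((∀ e, f e = g.a) ∨ (∀ e, f e = g.b) ∨ (∀ e, f e = T g.u.toAdd - 1) ∨
        ∀ e, f e = x - ∑ k, e k • v k) := by
    by_cases c1 : g.a = 0
    · by_cases c2 : g.b = 0
      · by_cases c3 : g.u = 1
        · refine ⟨_, fun e he => hg1 ?_, fun e => (a4.mono h1).sub (hv e).1, .inr (.inr (.inr fun _ => rfl))⟩
          ext
          · simpa using congrArg (fun f : R => f.coeff _) c1
          · simpa using c3
          · simpa using congrArg (fun f : R => f.coeff _) c2
          · rw [← a5, sub_eq_zero.1 he]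
            exact (QuotientAddGroup.eq_zero_iff _).2 (hv e).2
        · exact ⟨_, fun _ he => c3 (T_eq_one (sub_eq_zero.1 he)),
            fun _ => ((W_T a1).mono h1).sub (W_one _), .inr (.inr (.inl fun _ => rfl))⟩
      · exact ⟨_, fun _ => c2, fun _ => a3.mono h1, .inr (.inl fun _ => rfl)⟩
    · exact ⟨_, fun _ => c1, fun _ => a2.mono h1, .inl fun _ => rfl⟩
  obtain ⟨θ, hθ⟩ := count (F := F) (m := m) f f0 fW (by simpa [hF, ι] using h5)
  let ev : R →+* (Fin m → F) := Pi.ringHom fun j => LaurentPolynomial.eval₂ (algebraMap F2 F) (θ j)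
  have hθ' : ∀ e, ev (f e) ≠ 0 := fun e h => (hθ e).elim fun j hj => hj (congrFun h j)
  let ρ' : (Fin m → Fˣ) →* (Fin m → F) := Pi.monoidHom fun j => (Units.coeHom F).comp (Pi.evalMonoidHom _ j)
  let C' := (Cs d s).map ev.toAddMonoidHom
  have hk : ∀ u, ρ' (zpowersHom _ θ u) = ev (ρ0 u) := fun u => funext fun j => by
    exact (eval₂_T _ _ _).symm
  let ψ : GG d s →* Hall ρ' (QuotientAddGroup.mk' C') :=
    Hall.map ev (zpowersHom _ θ) (QuotientAddGroup.map _ _ ev.toAddMonoidHom (AddSubgroup.le_comap_map _ _))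
      hk fun _ => rfl
  haveI : Finite (Hall ρ' (QuotientAddGroup.mk' C')) := Finite.of_equiv _ Hall.equiv.symm
  refine ⟨ψ.ker, inferInstance, inferInstance, fun hψ => ?_, ?_⟩
  · rw [MonoidHom.mem_ker] at hψ
    rcases hf with hf | hf | hf | hf
    · exact hθ' 0 (by rw [hf]; exact congrArg Hall.a hψ)
    · exact hθ' 0 (by rw [hf]; exact congrArg Hall.b hψ)
    · refine hθ' 0 ?_
      rw [hf, map_sub, map_one, ← ρ0_apply, ← hk,
        show zpowersHom _ θ g.u = 1 from congrArg Hall.u hψ, map_one, sub_self]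
    · have hc := congrArg Hall.c hψ
      change QuotientAddGroup.map _ _ ev.toAddMonoidHom (AddSubgroup.le_comap_map _ _) g.c = 0 at hc
      rw [← a5] at hc
      obtain ⟨y, hy, e⟩ := (QuotientAddGroup.eq_zero_iff (N := C') (ev x)).1 hc
      have : ∃ e : ι → F2, ev y = ev (∑ k, e k • v k) := by
        clear e
        induction hy using AddSubgroup.closure_induction with
        | mem y hy =>
          obtain ⟨i', j, hj, rfl⟩ := hy
          by_cases hi : i' < i
          · exact ⟨Pi.single ⟨⟨i', hi⟩, ⟨j, hj⟩⟩ 1, by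
              rw [Finset.sum_eq_single ⟨⟨i', hi⟩, ⟨j, hj⟩⟩ (fun b _ hb => by simp [hb]) (by simp)]
              simp [v]⟩
          · refine ⟨0, funext fun j' => ?_⟩
            obtain ⟨c, hc⟩ : P d i ∣ P d i' := Nat.pow_sub_one_dvd_pow_sub_one 2 (h4 i' (by omega))
            have : θ j' ^ P d i = 1 := by
              rw [P, ← hF, ← Fintype.card_units]; exact pow_card_eq_one
            have h7 : LaurentPolynomial.eval₂ (algebraMap F2 F) (θ j') (rel d i' j) = 0 := by
              rw [rel, map_mul, map_sub, eval₂_T_n, hc, pow_mul, ← Units.val_pow_eq_pow_val, this]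
              simp
            simpa using! h7
        | zero => exact ⟨0, by simp⟩
        | add y z _ _ hy hz =>
          obtain ⟨e, he⟩ := hy
          obtain ⟨e', he'⟩ := hz
          exact ⟨e + e', by simp [he, he', add_smul, Finset.sum_add_distrib]⟩
        | neg y _ hy =>
          obtain ⟨e, he⟩ := hy
          exact ⟨-e, by simp only [map_neg, he, Pi.neg_apply, neg_smul, Finset.sum_neg_distrib]⟩
      obtain ⟨e', he'⟩ := this
      exact hθ' e' (by rw [hf, map_sub, ← he', ← e]; exact sub_self _)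
  · rw [Subgroup.index_ker]
    refine (Subgroup.card_le_card_group _).trans ?_
    have hS : Nat.card (Fin m → F) = 2 ^ (m * d i) := by simp [hF, pow_mul']
    have hU : Nat.card (Fin m → Fˣ) ≤ 2 ^ (m * d i) := hS ▸ Nat.card_le_card_of_injective
      (fun x j => (x j : F)) fun x y h => funext fun j => Units.ext (congrFun h j)
    have hZ : Nat.card ((Fin m → F) ⧸ C') ≤ 2 ^ (m * d i) := hS ▸ Nat.card_le_card_of_surjective _
      (QuotientAddGroup.mk'_surjective C')
    rw [Nat.card_congr Hall.equiv, Nat.card_prod, Nat.card_prod, Nat.card_prod, hS]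
    calc _ ≤ 2 ^ (m * d i) * (2 ^ (m * d i) * (2 ^ (m * d i) * 2 ^ (m * d i))) := by gcongr
      _ = _ := by ring

end Pool.Agent.H.MP_514792_al
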