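import Mathlib
import Pool.Agent.H.MP_514792_al.Main

set_option autoImplicit false

namespace Pool.Agent.H.MP_514792_al

open LaurentPolynomial Polynomial Hall

variable {d s : ℕ → ℕ}

lemma ball_E (k : ℕ) :
    E (QuotientAddGroup.mk' (Cs d s) (T k)) ∈ Ball (gens d s) (4 * k + 4) := by
  have h1 : (D (Multiplicative.ofAdd (k : ℤ)) : GG d s) ∈ Ball (gens d s) k := by
    have := Ball.pow (gen_D d s) k
    change Dh (Multiplicative.ofAdd 1) ^ _ ∈ _ at this
    rw [← map_pow] at this
    simpa [← ofAdd_nsmul] using! this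
  have h2 := Ball.mul (Ball.mul (Ball.inv h1) (Ball.gen (gen_A d s))) h1
  rw [conjA] at h2
  have h3 := Ball.gen (gen_B d s)
  have := Ball.mul (Ball.mul (Ball.mul h2 h3) (Ball.inv h2)) (Ball.inv h3)
  rw [Hall.comm] at this
  exact Ball.mono (by simpa using this) (by omega)

lemma rel_not_mem {i : ℕ} (h0 : 0 < P d i) (h1 : ∀ i' ≤ i, P d i' + s i' ≤ P d i + s i)
    (h2 : P d i + s i < P d (i + 1)) (h3 : ∀ i', i < i' → P d (i + 1) ∣ P d i') :
    rel d i (s i) ∉ Cs d s := by
  intro h
  let μ : ℤ → F2 := fun k => if k % P d (i + 1) = P d i + s i then 1 else 0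
  let l : R →+ F2 := (Finsupp.linearCombination F2 μ).toAddMonoidHom.comp
    AddMonoidAlgebra.coeffAddEquiv.toAddMonoidHom
  have hl : ∀ k, l (T k) = μ k := fun k => by
    change Finsupp.linearCombination F2 μ (Finsupp.single k 1) = _
    simp
  have hr : ∀ a b : ℕ, l (rel d a b) = μ (P d a + b) - μ b := fun a b => by
    rw [rel, sub_mul, one_mul, ← T_add, map_sub, hl, hl]
  have hm : ∀ k : ℕ, k < P d i + s i → μ k = 0 := fun k hk => by
    rw [show μ k = if _ then _ else _ from rfl, Int.emod_eq_of_lt (by omega) (by omega), if_neg]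
    omega
  have : Cs d s ≤ l.ker := (AddSubgroup.closure_le _).2 (by
    rintro _ ⟨a, b, hb, rfl⟩
    change l _ = 0
    rw [hr]
    rcases le_or_gt a i with ha | ha
    · have := h1 a ha
      rw [← Nat.cast_add, hm _ (by omega), hm _ (by omega), sub_zero]
    · obtain ⟨c, hc⟩ := h3 a ha
      simp [μ, hc])
  have h5 : l _ = 0 := this h
  rw [hr, hm _ (by omega), show μ _ = if _ then _ else _ from rfl,
    Int.emod_eq_of_lt (by omega) (by omega), if_pos rfl] at h5
  simp at h5

theorem lower {i : ℕ} (h0 : 0 < P d i) (h1 : ∀ i' ≤ i, P d i' + s i' ≤ P d i + s i)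
    (h2 : P d i + s i < P d (i + 1)) (h3 : ∀ i', i < i' → P d (i + 1) ∣ P d i') :
    Low (gens d s) (8 * (P d i + s i) + 8) (2 ^ s i) := by
  refine ⟨E (QuotientAddGroup.mk' (Cs d s) (rel d i (s i))), ?_, fun h => rel_not_mem h0 h1 h2 h3
    ((QuotientAddGroup.eq_zero_iff _).1 (congrArg Hall.c h)), fun N hN hf hg => ?_⟩
  · rw [rel, sub_mul, one_mul, ← T_add, map_sub, E_sub, ← Nat.cast_add]
    exact Ball.mono (Ball.mul (ball_E _) (Ball.inv (ball_E _))) (by omega)
  by_contra hlt
  push Not at hlt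
  obtain ⟨e, e', hne, he⟩ := Fintype.exists_ne_map_eq_of_card_lt (α := Fin (s i) → F2)
    (β := Fin N.index) (fun e => Finite.equivFin (GG d s ⧸ N)
      (A (toLaurent ((degreeLTEquiv F2 (s i)).symm e : F2[X])) : GG d s)) (by simpa using hlt)
  replace he := (Finite.equivFin (GG d s ⧸ N)).injective he
  rw [QuotientGroup.eq, ← A_sub, ← map_sub] at he
  set p : F2[X] := ((degreeLTEquiv F2 (s i)).symm e' : F2[X]) - (degreeLTEquiv F2 (s i)).symm e
  have hp : p ≠ 0 := fun h => hne ((degreeLTEquiv F2 (s i)).symm.injective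
    (Subtype.ext (sub_eq_zero.1 h))).symm
  have hd : p.degree < s i := mem_degreeLT.1 (sub_mem (Subtype.property _) (Subtype.property _))
  have hr : degree (X ^ s i % p : F2[X]) < (s i : WithBot ℕ) := (degree_mod_lt _ hp).trans hd
  have hC : (T (P d i) - 1) * toLaurent (X ^ s i % p) ∈ Cs d s := by
    generalize (X ^ s i % p : F2[X]) = r at hr
    have h8 := sum_fin (fun j a => monomial j a) (by simp) hr
    rw [sum_monomial_eq] at h8
    rw [← h8, map_sum, Finset.mul_sum]
    refine sum_mem fun j _ => ?_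
    rcases f2 (r.coeff j) with c | c
    · simp [c]
    · rw [c, ← X_pow_eq_monomial, toLaurent_X_pow]
      exact AddSubgroup.subset_closure ⟨_, _, j.2, rfl⟩
  apply hg
  have h7 : rel d i (s i) = toLaurent p * ((T (P d i) - 1) * toLaurent (X ^ s i / p)) +
      (T (P d i) - 1) * toLaurent (X ^ s i % p) := by
    rw [rel, ← toLaurent_X_pow (s i)]
    conv_lhs => rw [← EuclideanDomain.div_add_mod (X ^ s i) p]
    rw [map_add, map_mul]; ring
  rw [h7, map_add, show QuotientAddGroup.mk' (Cs d s) (_ * toLaurent (X ^ s i % p)) = 0 from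
    (QuotientAddGroup.eq_zero_iff _).2 hC, add_zero, ← Hall.comm]
  have := mul_mem he (hN.conj_mem _ (inv_mem he) (B ((T (P d i) - 1) * toLaurent (X ^ s i / p))))
  simpa [mul_assoc] using this

theorem not_vn : ¬ Group.IsVirtuallyNilpotent (GG d s) := by
  rintro ⟨H, h1, h2⟩
  let N := H.normalCore
  let u : Multiplicative ℤ := Multiplicative.ofAdd N.index
  have hu : (D u : GG d s) ∈ N := by
    have := N.pow_index_mem (D (Multiplicative.ofAdd 1))
    change Dh (Multiplicative.ofAdd 1) ^ _ ∈ _ at this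
    rw [← map_pow] at this
    simpa [← ofAdd_nsmul] using! this
  have hc : ∀ x : R, (A (x * (ρ0 u - 1)) : GG d s) = (A x)⁻¹ * (D u)⁻¹ * A x * D u := fun x => by
    rw [mul_sub, mul_one, A_sub, ← conjA]; group
  have h0 : (A (ρ0 u - 1) : GG d s) ∈ H := by
    rw [← one_mul (ρ0 u - 1), hc]
    refine H.normalCore_le (mul_mem ?_ hu)
    simpa using (inferInstance : N.Normal).conj_mem _ (inv_mem hu) (A 1)⁻¹
  have key : ∀ k, (A ((ρ0 u - 1) ^ (k + 1)) : GG d s) ∈ H.lowerCentralSeries k := by
    intro k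
    induction k with
    | zero => simpa using h0
    | succ k ih =>
      have := Subgroup.commutator_mem_commutator (inv_mem ih) (inv_mem (H.normalCore_le hu))
      rw [pow_succ _ (k + 1), hc]
      simpa [commutatorElement_def] using this
  obtain ⟨k, hk⟩ := H.isNilpotent_iff_lowerCentralSeries.1 h1
  have b := key k
  rw [hk, Subgroup.mem_bot] at b
  have := T_eq_one (sub_eq_zero.1 (pow_eq_zero_iff (by omega) |>.1 (congrArg Hall.a b)))
  exact Subgroup.FiniteIndex.index_ne_zero (H := N) (by simpa [u] using this)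

end Pool.Agent.H.MP_514792_al
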