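import Mathlib
import Pool.Agent.H.MP_514792_al.Low

set_option autoImplicit false

namespace Pool.Agent.H.MP_514792_al

lemma between (a : ℕ → ℕ) (ha : ∀ i, i < a i) {i0 n : ℕ} (h : a i0 ≤ n) :
    ∃ i, i0 ≤ i ∧ a i ≤ n ∧ n < a (i + 1) := by
  have ex : ∃ k, n < a (i0 + k + 1) := ⟨n, lt_of_le_of_lt (by omega) (ha _)⟩
  classical
  refine ⟨i0 + Nat.find ex, by omega, ?_, Nat.find_spec ex⟩
  rcases h0 : Nat.find ex with _ | k
  · exact h
  · exact not_lt.1 (Nat.find_min ex (m := k) (by omega))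

lemma rf_mono {G : Type} [Group G] {S : Finset G} (hS : Subgroup.closure (S : Set G) = ⊤)
    (h : ∀ n, ∃ M, Up S n M) {m n : ℕ} (hmn : m ≤ n) : rfGrowth S m ≤ rfGrowth S n := by
  obtain ⟨M, hM⟩ := h n
  exact csSup_le_csSup' ⟨M, hM.depth hS⟩ fun _ ⟨g, a, b, c⟩ => ⟨g, a, b.trans hmn, c⟩

section
variable {d s : ℕ → ℕ} (h0 : ∀ i, d i ≠ 0) (h1 : ∀ i, d i ∣ d (i + 1))
  (h2 : ∀ i, P d i + s i < P d (i + 1))
include h0 h1 h2

lemma lower' (i : ℕ) : Low (gens d s) (8 * (P d i + s i) + 8) (2 ^ s i) := by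
  have m1 : Monotone fun i => P d i + s i := monotone_nat_of_le_succ fun i => by
    have := h2 i; omega
  have m2 : ∀ a b, a ≤ b → d a ∣ d b := fun a b h => by
    induction h with
    | refl => rfl
    | step _ ih => exact ih.trans (h1 _)
  exact lower (Nat.sub_pos_of_lt (Nat.one_lt_two_pow (h0 i))) (fun _ h => m1 h) (h2 i)
    fun _ h => Nat.pow_sub_one_dvd_pow_sub_one 2 (m2 _ _ h)

lemma upper' {n j m K c : ℕ} (a1 : n ≤ K) (a2 : P d j + s j ≤ K)
    (a3 : ∑ i ∈ Finset.range (j + 1), s i ≤ c)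
    (a4 : 2 ^ c * (2 * K) ^ m < (2 ^ d (j + 1) - 1) ^ m) :
    Up (gens d s) n (2 ^ (4 * m * d (j + 1))) := by
  have m1 : Monotone fun i => P d i + s i := monotone_nat_of_le_succ fun i => by
    have := h2 i; omega
  have m2 : ∀ a b, a ≤ b → d a ∣ d b := fun a b h => by
    induction h with
    | refl => rfl
    | step _ ih => exact ih.trans (h1 _)
  refine upper a1 (fun i h => (m1 (Nat.le_of_lt_succ h)).trans a2) (h0 _) (m2 _) (lt_of_le_of_lt ?_ a4)
  rw [Fin.sum_univ_eq_sum_range]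
  gcongr
  norm_num
end

section inter
def d1 (i : ℕ) : ℕ := 2 ^ (i + 3)
def s1 (i : ℕ) : ℕ := d1 i ^ 2

lemma d1_succ (i : ℕ) : d1 (i + 1) = 2 * d1 i := by simp [d1, pow_succ]; ring
lemma d1_ge (i : ℕ) : 8 ≤ d1 i := Nat.pow_le_pow_right (n := 2) (by norm_num) (by omega : 3 ≤ i + 3)
lemma d1_gt (i : ℕ) : i < d1 i := lt_of_le_of_lt (by omega) (Nat.lt_two_pow_self (n := i + 3))
lemma s1_le (i : ℕ) : s1 i ≤ 2 ^ d1 i := by
  rw [s1, d1, ← pow_mul, mul_comm]
  exact Nat.pow_le_pow_right (by norm_num) (Nat.mul_le_pow (by norm_num) _)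
lemma q1_ge (i : ℕ) : 256 ≤ 2 ^ d1 i := Nat.pow_le_pow_right (n := 2) (by norm_num) (d1_ge i)

lemma hyp1 (i : ℕ) : P d1 i + s1 i < P d1 (i + 1) := by
  have a := s1_le i
  have b := q1_ge i
  rw [P, P, d1_succ, two_mul, pow_add]
  generalize 2 ^ d1 i = Q at *
  have : 256 * Q ≤ Q * Q := by gcongr
  omega

lemma up1 {n j : ℕ} (h : n ≤ 2 ^ d1 j) : Up (gens d1 s1) n (2 ^ (4 * (2 * s1 j + 1) * d1 (j + 1))) := by
  have a := s1_le j
  have b := q1_ge j
  refine upper' (fun i => by have := d1_ge i; omega) (fun i => by rw [d1_succ]; simp) hyp1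
    (K := 2 * 2 ^ d1 j) (c := 2 * s1 j) (by omega) (by rw [P]; omega) ?_ ?_
  · clear a b h
    induction j with
    | zero => simp; omega
    | succ j ih => rw [Finset.sum_range_succ, s1, d1_succ]; rw [s1] at ih; nlinarith
  · rw [d1_succ, two_mul (d1 j), pow_add 2 (d1 j)]
    generalize 2 ^ d1 j = Q at *
    have : 256 * Q ≤ Q * Q := by gcongr
    calc _ < 2 ^ (2 * s1 j + 1) * (2 * (2 * Q)) ^ (2 * s1 j + 1) := by
          exact Nat.mul_lt_mul_of_pos_right (Nat.pow_lt_pow_right (by norm_num) (by omega))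
            (Nat.pow_pos (by omega))
      _ = (2 * (2 * (2 * Q))) ^ (2 * s1 j + 1) := by rw [← mul_pow]
      _ ≤ _ := by gcongr; omega

lemma ups1 (n : ℕ) : ∃ M, Up (gens d1 s1) n M :=
  ⟨_, up1 (j := n) ((d1_gt n).le.trans Nat.lt_two_pow_self.le)⟩

lemma U1 (A : ℕ) : ∃ n0, ∀ n, n0 ≤ n → rfGrowth (gens d1 s1) n ^ A ≤ 2 ^ n := by
  have h := (isLittleO_pow_const_const_pow_of_one_lt (R := ℝ) 3 one_lt_two).bound
    (c := 1 / (192 * A + 1)) (by positivity)
  obtain ⟨D1, hD⟩ := Filter.eventually_atTop.1 h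
  refine ⟨2 ^ d1 0 + 192 * A * D1 ^ 3, fun n hn => ?_⟩
  obtain ⟨i, -, a, b⟩ := between (fun i => 2 ^ d1 i) (fun i => (d1_gt i).trans Nat.lt_two_pow_self)
    (i0 := 0) (n := n) (by omega)
  have c := (up1 b.le).le (gens_top _ _)
  refine (Nat.pow_le_pow_left c A).trans ?_
  rw [← pow_mul]
  refine Nat.pow_le_pow_right (by norm_num) ?_
  have e := d1_ge i
  have : 4 * (2 * s1 (i + 1) + 1) * d1 (i + 1 + 1) ≤ 192 * d1 i ^ 3 := by
    rw [s1, d1_succ (i + 1), d1_succ]; nlinarith [Nat.one_le_pow 2 (d1 i) (by omega)]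
  refine (Nat.mul_le_mul_right A this).trans ?_
  rcases le_total D1 (d1 i) with h | h
  · have := hD _ h
    simp only [Real.norm_eq_abs, abs_pow, Nat.abs_cast, Nat.abs_ofNat] at this
    rw [one_div, ← div_eq_inv_mul, le_div_iff₀ (by positivity)] at this
    have : d1 i ^ 3 * (192 * A + 1) ≤ 2 ^ d1 i := by exact_mod_cast this
    nlinarith [Nat.zero_le (d1 i ^ 3)]
  · have : d1 i ^ 3 ≤ D1 ^ 3 := by gcongr
    nlinarith [Nat.zero_le (2 ^ d1 0)]

lemma L1 (e : ℕ) : ∃ n0, ∀ n, n0 ≤ n → n ^ e ≤ rfGrowth (gens d1 s1) n := by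
  refine ⟨16 * 2 ^ d1 (3 * e), fun n hn => ?_⟩
  obtain ⟨i, hi, a, b⟩ := between (fun i => 16 * 2 ^ d1 i)
    (fun i => by have := (d1_gt i).trans Nat.lt_two_pow_self; omega) hn
  have c := (lower' (fun i => by have := d1_ge i; omega) (fun i => by rw [d1_succ]; simp) hyp1 i).le
    (gens_top _ _) ups1 (n := n) (by have := s1_le i; have := q1_ge i; rw [P]; omega)
  refine le_trans ?_ c
  have e1 := d1_ge i
  have e2 := d1_gt i
  calc n ^ e ≤ (2 ^ (3 * d1 i)) ^ e := by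
        gcongr
        refine b.le.trans ?_
        rw [d1_succ, show 16 = 2 ^ 4 from rfl, ← pow_add]
        exact Nat.pow_le_pow_right (by norm_num) (by omega)
    _ ≤ _ := by
        rw [← pow_mul]
        exact Nat.pow_le_pow_right (by norm_num) (by rw [s1]; nlinarith)

theorem inter : (∀ e : ℕ, Prec (fun n => (n : ℝ) ^ e) (fun n => rfGrowth (gens d1 s1) n) ∧
      ¬ Prec (fun n => rfGrowth (gens d1 s1) n) fun n => (n : ℝ) ^ e) ∧
    Prec (fun n => rfGrowth (gens d1 s1) n) (fun n => Real.exp n) ∧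
      ¬ Prec (fun n => Real.exp n) fun n => rfGrowth (gens d1 s1) n := by
  have h2 : ∀ k : ℕ, (2 : ℝ) ^ k ≤ Real.exp k := fun k => by
    rw [← Real.exp_one_pow]
    gcongr
    linarith [Real.add_one_le_exp 1]
  refine ⟨fun e => ⟨?_, ?_⟩, ?_, ?_⟩
  · obtain ⟨n0, h⟩ := L1 e
    refine ⟨n0 + 1, by omega, fun n hn => ?_⟩
    have := h ((n0 + 1) * n) (by nlinarith)
    have : n ^ e ≤ (n0 + 1) * rfGrowth (gens d1 s1) ((n0 + 1) * n) := by
      have : n ^ e ≤ ((n0 + 1) * n) ^ e := by gcongr; nlinarith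
      nlinarith
    beta_reduce
    exact_mod_cast this
  · rintro ⟨C, hC, h⟩
    obtain ⟨n0, h'⟩ := L1 (e + 1)
    have a := h (n0 + C ^ (e + 1) + 1) (by omega)
    have b := h' (n0 + C ^ (e + 1) + 1) (by omega)
    generalize hn : n0 + C ^ (e + 1) + 1 = n at a b
    beta_reduce at a
    have a' : rfGrowth (gens d1 s1) n ≤ C * (C * n) ^ e := by exact_mod_cast a
    have : n * n ^ e ≤ C ^ (e + 1) * n ^ e := by
      calc _ = n ^ (e + 1) := by ring
        _ ≤ _ := b.trans a'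
        _ = _ := by ring
    have := Nat.le_of_mul_le_mul_right this (Nat.pow_pos (by omega))
    omega
  · obtain ⟨n0, h⟩ := U1 1
    refine ⟨n0 + 1, by omega, fun n hn => ?_⟩
    have a := (rf_mono (gens_top _ _) ups1 (by nlinarith : n ≤ (n0 + 1) * n)).trans
      ((pow_one _).symm.le.trans (h ((n0 + 1) * n) (by nlinarith)))
    have a' : (rfGrowth (gens d1 s1) n : ℝ) ≤ 2 ^ ((n0 + 1) * n) := by exact_mod_cast a
    refine (a'.trans (h2 _)).trans (le_mul_of_one_le_left (by positivity) ?_)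
    exact_mod_cast (by omega : 1 ≤ n0 + 1)
  · rintro ⟨C, hC, h⟩
    obtain ⟨n0, h'⟩ := U1 (2 * C)
    have a := (h2 _).trans (h (n0 + C ^ 2 + 1) (by omega))
    have b := h' (C * (n0 + C ^ 2 + 1)) (by nlinarith)
    generalize hn : n0 + C ^ 2 + 1 = n at a b
    beta_reduce at a
    have a' : 2 ^ n ≤ C * rfGrowth (gens d1 s1) (C * n) := by exact_mod_cast a
    rw [pow_mul, pow_mul'] at b
    have b' := (Nat.pow_le_pow_iff_left hC.ne').1 b
    have c : 2 ^ n * 2 ^ n ≤ C ^ 2 * 2 ^ n := by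
      calc _ ≤ (C * rfGrowth (gens d1 s1) (C * n)) * (C * rfGrowth (gens d1 s1) (C * n)) := by gcongr
        _ = C ^ 2 * rfGrowth (gens d1 s1) (C * n) ^ 2 := by ring
        _ ≤ _ := by gcongr
    have := Nat.le_of_mul_le_mul_right c (by positivity)
    have := Nat.lt_two_pow_self (n := n)
    omega
end inter

end Pool.Agent.H.MP_514792_al
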